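import Pool.Agent.Helper30_Simp2.Stmts
import Pool.Agent.Helper70_Simp.BData

/-!
# A rational section and generic multiplicities for a flat cell
-/

set_option autoImplicit false

namespace Pool.Agent.Helper30_Simp2.H66

open Finset Pool.Agent.Helper6_Mono Pool.Agent.Helper30_Simp

theorem bdata2 : BData2Stmt := by
  intro σ _ M κ hflat
  classical
  set F : Finset (σ →₀ ℕ) := M.filter (fun α => α ∈ face M κ) with hF
  have memF : ∀ α, α ∈ F ↔ α ∈ face M κ := by
    intro α
    rw [hF, mem_filter]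
    exact ⟨fun h => h.2, fun h => ⟨h.1, h⟩⟩
  have FM : F ⊆ M := filter_subset _ _
  let T : (F → ℚ) →ₗ[ℚ] ({j // κ j ≠ 0} → ℚ) :=
    { toFun := fun z j => ∑ α : F, z α * ((α : σ →₀ ℕ) j.1 : ℚ)
      map_add' := by
        intro z z'
        funext j
        simp only [Pi.add_apply, add_mul, Finset.sum_add_distrib]
      map_smul' := by
        intro c z
        funext j
        simp only [Pi.smul_apply, smul_eq_mul, RingHom.id_apply, mul_assoc, ← Finset.mul_sum] }
  have hT : ∀ z j, T z j = ∑ α : F, z α * ((α : σ →₀ ℕ) j.1 : ℚ) := fun z j => rfl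
  have hTs : ∀ β : F, T (Pi.single β (1 : ℚ)) = fun j => ((β : σ →₀ ℕ) j.1 : ℚ) := by
    intro β
    funext j
    rw [hT, Finset.sum_eq_single β]
    · simp
    · intro c _ hc
      rw [Pi.single_eq_of_ne hc, zero_mul]
    · intro h
      exact absurd (mem_univ _) h
  have hsumJ : ∀ (c v : σ → ℚ), (∀ i, κ i = 0 → v i = 0) →
      ∑ i, v i * c i = ∑ j : {j // κ j ≠ 0}, v j.1 * c j.1 := by
    intro c v hv
    rw [← Finset.sum_subtype (univ.filter fun j => κ j ≠ 0) (fun j => by simp)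
      (fun j => v j * c j)]
    symm
    refine Finset.sum_subset (filter_subset _ _) fun j _ hj => ?_
    rw [hv j (by simpa using hj), zero_mul]
  -- the vector `-1` is in the range
  have hone : (fun _ => -1 : {j // κ j ≠ 0} → ℚ) ∈ LinearMap.range T := by
    by_contra hne
    obtain ⟨φ, hφ1, hφ2⟩ := Submodule.exists_le_ker_of_notMem hne
    have h1 := hflat (fun i => if h : κ i ≠ 0 then φ (Pi.single ⟨i, h⟩ 1) else 0)
      (fun i hi => by rw [dif_neg (not_not.2 hi)]) ?_
    · apply hφ1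
      have h2 : (fun _ => -1 : {j // κ j ≠ 0} → ℚ)
          = ∑ j, (-1 : ℚ) • (Pi.single j (1 : ℚ) : {j // κ j ≠ 0} → ℚ) := by
        funext i
        rw [Finset.sum_apply, Finset.sum_eq_single i]
        · simp
        · intro j _ hj
          rw [Pi.smul_apply, Pi.single_eq_of_ne hj.symm, smul_zero]
        · intro h
          exact absurd (mem_univ _) h
      rw [h2, map_sum]
      simp_rw [map_smul]
      rw [← Finset.smul_sum]
      have h3 : ∑ j : {j // κ j ≠ 0}, φ (Pi.single j 1) = 0 := by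
        rw [← h1]
        have h8 := hsumJ (fun _ => 1) (fun i => if h : κ i ≠ 0 then φ (Pi.single ⟨i, h⟩ 1) else 0)
          (fun i hi => dif_neg (not_not.2 hi))
        simp only [mul_one] at h8
        rw [h8]
        refine Finset.sum_congr rfl fun j _ => ?_
        rw [dif_pos j.2]
      rw [h3, smul_zero]
    · intro α hα
      have h4 : φ (T (Pi.single ⟨α, (memF α).2 hα⟩ 1)) = 0 :=
        LinearMap.mem_ker.1 (hφ2 (LinearMap.mem_range_self T _))
      rw [hTs] at h4
      have h5 : (fun j => (α j.1 : ℚ) : {j // κ j ≠ 0} → ℚ)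
          = ∑ j : {j // κ j ≠ 0}, (α j.1 : ℚ) • (Pi.single j (1 : ℚ) : {j // κ j ≠ 0} → ℚ) := by
        funext i
        rw [Finset.sum_apply, Finset.sum_eq_single i]
        · simp
        · intro j _ hj
          rw [Pi.smul_apply, Pi.single_eq_of_ne hj.symm, smul_zero]
        · intro h
          exact absurd (mem_univ _) h
      have h6 : φ (fun j => (α j.1 : ℚ)) = 0 := h4
      rw [h5, map_sum] at h6
      simp_rw [map_smul, smul_eq_mul] at h6
      rw [hsumJ (fun i => (α i : ℚ)) _ (fun i hi => dif_neg (not_not.2 hi)), ← h6]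
      refine Finset.sum_congr rfl fun j _ => ?_
      rw [dif_pos j.2, mul_comm]
  -- a section on the range
  obtain ⟨g, hg⟩ : ∃ g : ({j // κ j ≠ 0} → ℚ) →ₗ[ℚ] (F → ℚ),
      ∀ w ∈ LinearMap.range T, T (g w) = w := by
    obtain ⟨g0, hg0⟩ := LinearMap.exists_rightInverse_of_surjective T.rangeRestrict
      (LinearMap.range_rangeRestrict T)
    obtain ⟨g, hg⟩ := LinearMap.exists_extend g0
    refine ⟨g, fun w hw => ?_⟩
    have h1 : g w = g0 ⟨w, hw⟩ := by
      rw [← hg]
      rfl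
    have h2 := LinearMap.congr_fun hg0 ⟨w, hw⟩
    rw [h1]
    exact congrArg Subtype.val h2
  obtain ⟨τ, hτ⟩ := H70.exists_transc
  let b := Module.finBasis ℚ (LinearMap.ker T)
  let m0 : F → ℚ := g (fun _ => -1)
  let mF : F → ℂ := fun α => (m0 α : ℂ) +
    ∑ r : Fin (Module.finrank ℚ (LinearMap.ker T)), τ ^ ((r : ℕ) + 1) * (((b r : F → ℚ) α : ℚ) : ℂ)
  -- sums over `M` and over `F`
  have sumC : ∀ (u : (σ →₀ ℕ) → ℂ), (∀ α, α ∉ F → u α = 0) →
      ∑ α ∈ M, u α = ∑ α : F, u α := by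
    intro u hu
    rw [Finset.sum_coe_sort F u]
    exact (Finset.sum_subset FM fun α _ h => hu α h).symm
  have sumQ : ∀ (u : (σ →₀ ℕ) → ℚ), (∀ α, α ∉ F → u α = 0) →
      ∑ α ∈ M, u α = ∑ α : F, u α := by
    intro u hu
    rw [Finset.sum_coe_sort F u]
    exact (Finset.sum_subset FM fun α _ h => hu α h).symm
  let m : (σ →₀ ℕ) → ℂ := fun α => if h : α ∈ F then mF ⟨α, h⟩ else 0
  let lam : (σ →₀ ℕ) → σ → ℚ := fun α j =>
    if h : α ∈ F then (if hj : κ j ≠ 0 then g (Pi.single ⟨j, hj⟩ 1) ⟨α, h⟩ else 0) else 0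
  have hm1 : ∀ α, α ∉ F → m α = 0 := fun α h => dif_neg h
  have hm2 : ∀ α : F, m α = mF α := fun α => dif_pos α.2
  have hl1 : ∀ α j, α ∉ F → lam α j = 0 := fun α j h => dif_neg h
  have hl2 : ∀ α j, κ j = 0 → lam α j = 0 := by
    intro α j hj
    by_cases h : α ∈ F
    · show (if h : α ∈ F then (if hj : κ j ≠ 0 then g (Pi.single ⟨j, hj⟩ 1) ⟨α, h⟩ else 0)
        else 0) = 0
      rw [dif_pos h, dif_neg (not_not.2 hj)]
    · exact hl1 α j h
  have hl3 : ∀ (α : F) (j : {j // κ j ≠ 0}), lam α j.1 = g (Pi.single j 1) α := by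
    intro α j
    show (if h : (α : σ →₀ ℕ) ∈ F then (if hj : κ j.1 ≠ 0 then
      g (Pi.single ⟨j.1, hj⟩ 1) ⟨α, h⟩ else 0) else 0) = _
    rw [dif_pos α.2, dif_pos j.2]
  -- the section applied to a vector
  have hgl : ∀ (w : {j // κ j ≠ 0} → ℚ) (α : F), g w α = ∑ j, lam α j.1 * w j := by
    intro w α
    have h1 : w = ∑ j, w j • (Pi.single j (1 : ℚ) : {j // κ j ≠ 0} → ℚ) := by
      funext i
      rw [Finset.sum_apply, Finset.sum_eq_single i]
      · simp
      · intro j _ hj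
        rw [Pi.smul_apply, Pi.single_eq_of_ne hj.symm, smul_zero]
      · intro h
        exact absurd (mem_univ _) h
    conv_lhs => rw [h1]
    rw [map_sum, Finset.sum_apply]
    refine Finset.sum_congr rfl fun j _ => ?_
    rw [map_smul, Pi.smul_apply, smul_eq_mul, hl3, mul_comm]
  have hsub : ∀ (α : σ →₀ ℕ) (β : σ →₀ ℕ), ∑ j, lam α j * (β j : ℚ)
      = ∑ j : {j // κ j ≠ 0}, lam α j.1 * (β j.1 : ℚ) := by
    intro α β
    rw [← Finset.sum_subtype (univ.filter fun j => κ j ≠ 0) (fun j => by simp)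
      (fun j => lam α j * (β j : ℚ))]
    symm
    refine Finset.sum_subset (filter_subset _ _) fun j _ hj => ?_
    rw [hl2 α j (by simpa using hj), zero_mul]
  have hgβ : ∀ β : F, T (g (fun j => ((β : σ →₀ ℕ) j.1 : ℚ)))
      = fun j => ((β : σ →₀ ℕ) j.1 : ℚ) := by
    intro β
    apply hg
    rw [← hTs β]
    exact LinearMap.mem_range_self T _
  refine ⟨m, lam, fun α hα => ?_, hl2, fun j hj => ?_, fun β hβ j hj => ?_, fun α hα hint => ?_⟩
  · have h1 : α ∉ F := fun h => hα ((memF α).1 h)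
    exact ⟨hm1 α h1, fun j => hl1 α j h1⟩
  · rw [sumC (fun α => m α * (α j : ℂ)) (fun α h => by
      show m α * (α j : ℂ) = 0
      rw [hm1 α h, zero_mul])]
    have h1 : ∑ α : F, m α * (((α : σ →₀ ℕ) j : ℕ) : ℂ)
        = ((T m0 ⟨j, hj⟩ : ℚ) : ℂ) + ∑ r : Fin (Module.finrank ℚ (LinearMap.ker T)),
          τ ^ ((r : ℕ) + 1) * ((T (b r : F → ℚ) ⟨j, hj⟩ : ℚ) : ℂ) := by
      simp_rw [hT, hm2]
      push_cast
      simp_rw [Finset.mul_sum]
      rw [Finset.sum_comm, ← Finset.sum_add_distrib]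
      refine Finset.sum_congr rfl fun α _ => ?_
      show ((m0 α : ℂ) + ∑ r : Fin (Module.finrank ℚ (LinearMap.ker T)),
        τ ^ ((r : ℕ) + 1) * (((b r : F → ℚ) α : ℚ) : ℂ)) * _ = _
      rw [add_mul, Finset.sum_mul]
      congr 1
      refine Finset.sum_congr rfl fun r _ => ?_
      ring
    show ∑ α : F, m α * (((α : σ →₀ ℕ) j : ℕ) : ℂ) = -1
    rw [h1]
    have h2 : T m0 ⟨j, hj⟩ = -1 := by
      show T (g (fun _ => -1)) ⟨j, hj⟩ = -1
      rw [hg _ hone]
    have h3 : ∀ r, T (b r : F → ℚ) = 0 := fun r => LinearMap.mem_ker.1 (b r).2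
    rw [h2]
    simp [h3]
  · have h1 := congrFun (hgβ ⟨β, (memF β).2 hβ⟩) ⟨j, hj⟩
    rw [hT] at h1
    rw [sumQ (fun α => (∑ i, lam α i * (β i : ℚ)) * (α j : ℚ)) (fun α h => by
      show (∑ i, lam α i * (β i : ℚ)) * (α j : ℚ) = 0
      rw [Finset.sum_eq_zero fun i _ => by rw [hl1 α i h, zero_mul], zero_mul])]
    simp only at h1
    rw [← h1]
    refine Finset.sum_congr rfl fun α _ => ?_
    rw [hsub, hgl]
  · obtain ⟨n, hn⟩ := hint
    have hαF : α ∈ F := (memF α).2 hα
    -- the coordinate `α` of the kernel is zero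
    have hker : ∀ r, (b r : F → ℚ) ⟨α, hαF⟩ = 0 := by
      intro r
      have h0 : (m0 ⟨α, hαF⟩ : ℂ) + ∑ r : Fin (Module.finrank ℚ (LinearMap.ker T)),
          τ ^ ((r : ℕ) + 1) * (((b r : F → ℚ) ⟨α, hαF⟩ : ℚ) : ℂ) = n := by
        rw [← hn]
        exact (hm2 ⟨α, hαF⟩).symm
      let p : Polynomial ℚ := Polynomial.C (m0 ⟨α, hαF⟩ - n) +
        ∑ r : Fin (Module.finrank ℚ (LinearMap.ker T)),
          Polynomial.monomial ((r : ℕ) + 1) ((b r : F → ℚ) ⟨α, hαF⟩)
      have hp : Polynomial.aeval τ p = 0 := by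
        show Polynomial.aeval τ (Polynomial.C (m0 ⟨α, hαF⟩ - n) +
          ∑ r : Fin (Module.finrank ℚ (LinearMap.ker T)),
            Polynomial.monomial ((r : ℕ) + 1) ((b r : F → ℚ) ⟨α, hαF⟩)) = 0
        rw [map_add, map_sum, Polynomial.aeval_C]
        simp_rw [Polynomial.aeval_monomial]
        have h5 : ∀ q : ℚ, algebraMap ℚ ℂ q = (q : ℂ) := fun q => rfl
        simp_rw [h5]
        push_cast
        rw [sub_add_eq_add_sub, sub_eq_zero, ← h0]
        congr 1
        exact Finset.sum_congr rfl fun r _ => mul_comm _ _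
      have hp0 := hτ p hp
      have h6 : p.coeff ((r : ℕ) + 1) = 0 := by rw [hp0, Polynomial.coeff_zero]
      have h7 : p.coeff ((r : ℕ) + 1) = (b r : F → ℚ) ⟨α, hαF⟩ := by
        show (Polynomial.C (m0 ⟨α, hαF⟩ - n) +
          ∑ r : Fin (Module.finrank ℚ (LinearMap.ker T)),
            Polynomial.monomial ((r : ℕ) + 1) ((b r : F → ℚ) ⟨α, hαF⟩)).coeff ((r : ℕ) + 1) = _
        rw [Polynomial.coeff_add, Polynomial.coeff_C_succ, zero_add, Polynomial.finsetSum_coeff,
          Finset.sum_eq_single r]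
        · rw [Polynomial.coeff_monomial, if_pos rfl]
        · intro s _ hs
          rw [Polynomial.coeff_monomial, if_neg]
          intro h
          apply hs
          apply Fin.ext
          omega
        · intro h
          exact absurd (mem_univ _) h
      rw [← h7, h6]
    have hker2 : ∀ z : F → ℚ, T z = 0 → z ⟨α, hαF⟩ = 0 := by
      intro z hz
      have h1 := b.sum_repr ⟨z, LinearMap.mem_ker.2 hz⟩
      have h2 := congrArg (fun w : LinearMap.ker T => (w : F → ℚ) ⟨α, hαF⟩) h1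
      simp only at h2
      rw [← h2, Submodule.coe_sum, Finset.sum_apply]
      refine Finset.sum_eq_zero fun r _ => ?_
      rw [Submodule.coe_smul, Pi.smul_apply, hker r, smul_zero]
    have key : ∀ β : F, ∑ j, lam α j * ((β : σ →₀ ℕ) j : ℚ)
        = (Pi.single β (1 : ℚ) : F → ℚ) ⟨α, hαF⟩ := by
      intro β
      rw [hsub]
      have h2 := hgl (fun j => ((β : σ →₀ ℕ) j.1 : ℚ)) ⟨α, hαF⟩
      have h3 := hker2 (g (fun j => ((β : σ →₀ ℕ) j.1 : ℚ)) - Pi.single β (1 : ℚ)) (by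
        rw [map_sub, hgβ, hTs, sub_self])
      rw [Pi.sub_apply, sub_eq_zero] at h3
      rw [← h3, h2]
    refine ⟨?_, fun β hβ hne => ?_⟩
    · have := key ⟨α, hαF⟩
      rwa [Pi.single_eq_same] at this
    · have := key ⟨β, (memF β).2 hβ⟩
      rwa [Pi.single_eq_of_ne (fun h => hne (congrArg Subtype.val h).symm)] at this

end Pool.Agent.Helper30_Simp2.H66
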